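import Pool.Agent.Y156.E.AllMain

/-!
# Etale cycle complexes of arithmetic schemes of bounded dimension: one model suffices

Fix a weight `n < 0` and a bound `D`. The groups `H^i(X_et, ℤ^c(n))` are finitely generated for all
arithmetic schemes `X` of dimension at most `D` and all `i`, if and only if they are finitely generated for
`i ≤ -2 n` and for the members of dimension at most `D` of a class `S` of proper regular connected
schemes such that every proper regular connected scheme of dimension at most `D` is covered by a member
of `S` of dimension at most `D`. Here `X'` covers `X` if there is a projective surjective morphism from `X'`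
to `X`, or if `X'` is projective of dimension at most three and there is a dominant rational map from `X'`
to `X`. For instance, for `D ≤ 3` it is enough to know one projective regular model of some finite
extension of each function field.

The etale motivic cohomology is given by its known properties (`IsAll`).
-/

set_option autoImplicit false

namespace Pool.Agent.Results.MP_e93a6a_ag.OneModelSuffices

open Pool.Agent.Y156.E

/-- The reduction in a fixed weight and up to a fixed dimension. -/
theorem result (T : AllData) (hT : IsAll T) (D : ℕ) {n : ℤ} (hn : n < 0) {S : T.V → Prop}
    (hS : ∀ X : T.V, T.dim X ≤ D → ∃ X', S X' ∧ T.dim X' ≤ D ∧ Covers (T := T.toEtaleData) X' X) :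
    (∀ X : T.W, T.dimw X ≤ D → ∀ i : ℤ, AddGroup.FG (T.Hw X i n)) ↔
      ∀ X : T.V, S X → T.dim X ≤ D → ∀ i : ℤ, i ≤ -2 * n →
        AddGroup.FG (Hc (T := T.toEtaleData) X i n) :=
  fixed_weight hT D hn hS

end Pool.Agent.Results.MP_e93a6a_ag.OneModelSuffices
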