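import Pool.Agent.Y156.E.AllMain

/-!
# Etale cycle complexes of all arithmetic schemes: reduction to semistable projective schemes

The question is whether `H^i(X_et, ℤ^c(n))` is finitely generated for all arithmetic schemes `X`, all
`n < 0` and all `i`. It is equivalent to the finite generation of `H^i(X_et, ℤ^c(-1))` in the bounded range
`-2 d ≤ i ≤ 2`, `d = dim X`, for the proper regular connected schemes of dimension at least `D` in a class
such that every proper regular connected scheme has a projective surjective morphism from an element of
the class; by the theorem of de Jong on alterations, one can take the projective schemes with strictly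
semistable reduction. Here `D` is arbitrary.

The etale motivic cohomology is given by its known properties (`IsAll`).
-/

set_option autoImplicit false

namespace Pool.Agent.Results.MP_e93a6a_ag.SemistableSchemes

open Pool.Agent.Y156.E

/-- The reduction to the weight `-1`, to bounded degrees and to a dominating class of proper regular
connected schemes of large dimension. -/
theorem result (T : AllData) (hT : IsAll T) {S : T.V → Prop}
    (hS : Dominating (T := T.toEtaleData) S) (D : ℕ) :
    (∀ (X : T.W) (n i : ℤ), n < 0 → AddGroup.FG (T.Hw X i n)) ↔
      ∀ X : T.V, S X → D ≤ T.dim X → ∀ i : ℤ, -2 * T.dim X ≤ i → i ≤ 2 →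
        AddGroup.FG (Hc (T := T.toEtaleData) X i (-1)) :=
  weight_minus_one hT hS D

end Pool.Agent.Results.MP_e93a6a_ag.SemistableSchemes
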