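import Pool.Agent.Y456.LG.EtaleThin

/-!
# Finite generation of étale cycle-complex cohomology: sparse linear sections of `GL_m`

Let `M` be a square matrix of polynomials over `ℤ` each of whose entries is `0`, `1` or a variable and in
which each of the `d` variables occurs (`IsPattern M`), and suppose that there are at most three nonzero
entries in every row and in every column (`Thin M`). The points `x` of the affine space `𝔸^d` over `ℤ` such
that `M(x)` is invertible form the scheme `secGL M`, a smooth affine linear section of `GL_m`.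

1. For every integer `N`: the groups `H^i(X_et, ℤ^c(n))` are finitely generated for all arithmetic schemes
   `X`, all `n < 0` and all `i` (Q1) if and only if the groups `H^i(U_et, ℤ^c(-1))` are finitely generated
   for all `i ≤ N` and all these sparse sections `U = secGL M`.
2. For each `n < 0` and each `d`, finite generation of `H^i(X_et, ℤ^c(n))` for all `i` and all closed
   subschemes `X` of `𝔸^d` is equivalent to finite generation for the sparse sections in `d` variables.
3. For each arithmetic scheme `X` there are finitely many sparse sections `U_1, …, U_r`, the same for all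
   `n < 0` and all `N`, such that finite generation of `H^i((U_k)_et, ℤ^c(n))` for all `i ≤ N` and all `k`
   implies finite generation of `H^i(X_et, ℤ^c(n))` for all `i ≤ N`. If `X` is a closed subscheme of `𝔸^d`,
   there are such sections in `d` variables.

The cohomology is given by its known properties (`IsEtCoh`).
-/

namespace Pool.Agent.Results.MP_e93a6a_ag.SparseLinearSections

open CategoryTheory AlgebraicGeometry MvPolynomial Pool.Agent.Y116.UV Pool.Agent.Y111.WM
  Pool.Agent.Y456.LG

/-- Finite generation of the étale cohomology of Bloch's cycle complexes and smooth affine linear sections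
of `GL_m` given by patterns of zeros, ones and variables with at most three nonzero entries in every row
and column: for all arithmetic schemes, for all closed subschemes of `𝔸^d`, and for each scheme alone. -/
theorem result :
    (∀ T : EtCoh, IsEtCoh T → ∀ N : ℤ, (Conjecture T ↔
      ∀ (d m : ℕ) (M : Matrix (Fin m) (Fin m) (MvPolynomial (Fin d) ℤ)), IsPattern M → Thin M →
        FGUpTo T (-1) N (secGL M))) ∧
    (∀ T : EtCoh, IsEtCoh T → ∀ n : ℤ, n < 0 → ∀ d : ℕ,
      ((∀ (A : Type) [CommRing A] [Algebra ℤ A] (a : Fin d → A),
        Function.Surjective (MvPolynomial.aeval (R := ℤ) a) → FGAll T n (aff ℤ A)) ↔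
      ∀ (m : ℕ) (M : Matrix (Fin m) (Fin m) (MvPolynomial (Fin d) ℤ)), IsPattern M → Thin M →
        FGAll T n (secGL M))) ∧
    (∀ X : Sch ℤ, FT True X → ∃ L : Mats ℤ, (∀ x ∈ L, IsPattern x.2.2 ∧ Thin x.2.2) ∧
      ∀ T : EtCoh, IsEtCoh T → ∀ n : ℤ, n < 0 → ∀ N : ℤ,
        (∀ x ∈ L, FGUpTo T n N (secGL x.2.2)) → FGUpTo T n N X) ∧
    ∀ (d : ℕ) (A : Type) [CommRing A] [Algebra ℤ A] (a : Fin d → A),
      Function.Surjective (MvPolynomial.aeval (R := ℤ) a) →
      ∃ L : Mats ℤ, (∀ x ∈ L, x.1 = d ∧ IsPattern x.2.2 ∧ Thin x.2.2) ∧
        ∀ T : EtCoh, IsEtCoh T → ∀ n : ℤ, n < 0 → ∀ N : ℤ,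
          (∀ x ∈ L, FGUpTo T n N (secGL x.2.2)) → FGUpTo T n N (aff ℤ A) :=
  ⟨fun T hT N => ⟨fun h _ _ M _ _ i _ => h (secGL M) (ft_secGL M) (-1) (by norm_num) i,
      etale_conj_thin hT N⟩,
    fun _ hT _ hn d => etale_thin hT hn d,
    fun X hX => etale_local X hX,
    fun _ A _ _ a ha => etale_local_gen A a ha⟩

end Pool.Agent.Results.MP_e93a6a_ag.SparseLinearSections
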