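import Pool.Agent.Y111.WM.Main

/-!
# Finite generation of the étale cohomology of Bloch's cycle complexes in negative weights

The groups `H^i(X_et, ℤ^c(n))` are finitely generated for all arithmetic schemes `X`, all `n < 0` and all
`i`, if and only if this is so in the one weight `n = -1`, for very negative `i` (`i ≤ N` for some
integer `N`), for the zero sets over `ℤ` of systems of bilinear equations `∑ x_i y_j = 0` with at most
three terms in each equation; equivalently for the open complements of these zero sets in the affine
space, which are smooth over `ℤ`; equivalently for all `X` in the weight `-1` and in arbitrarily negative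
degrees.

The cohomology groups are given by their known properties (`IsEtCoh`).
-/

namespace Pool.Agent.Results.MP_e93a6a_ag.WeightMinusOne

open CategoryTheory AlgebraicGeometry Pool.Agent.Y116.UV Pool.Agent.Y111.WM

/-- The conjecture is equivalent to finite generation in the weight `-1` and in very negative degrees for
the varieties of the bilinear systems with at most three terms in each equation, or for their open
complements in the affine space, and to finite generation in the weight `-1` for all arithmetic schemes
in arbitrarily negative degrees. -/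
theorem result (T : EtCoh) (hT : IsEtCoh T) :
    (Conjecture T ↔ ∃ N : ℤ, ∀ (a b c : ℕ) (H : Fin a → Finset (Fin b × Fin c)), Short H →
      ∀ i ≤ N, AddGroup.FG (T.H (bilS H) (-1) i)) ∧
    (Conjecture T ↔ ∃ N : ℤ, ∀ (a b c : ℕ) (H : Fin a → Finset (Fin b × Fin c)), Short H →
      ∀ i ≤ N, AddGroup.FG (T.H (bilU H) (-1) i)) ∧
    (Conjecture T ↔ ∀ N : ℤ, ∃ i ≤ N, ∀ X : Sch ℤ, FT True X → AddGroup.FG (T.H X (-1) i)) := by
  refine ⟨⟨fun h => ⟨0, fun a b c H _ i _ => h _ (ft_aff True) _ (by norm_num) i⟩, ?_⟩,
    ⟨fun h => ⟨0, fun a b c H _ i _ => h _ (ft_bilU H) _ (by norm_num) i⟩, ?_⟩,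
    ⟨fun h N => ⟨N, le_refl N, fun X hX => h X hX _ (by norm_num) N⟩, ?_⟩⟩
  · rintro ⟨N, hN⟩
    exact conj_of_bil hN hT
  · rintro ⟨N, hN⟩
    refine conj_of_bil (N := N + 1) (fun a b c H hH i hi => ?_) hT
    have h := bil_of_compl hT H (i - 1) (hN a b c H hH (i - 1) (by omega))
    rwa [sub_add_cancel] at h
  · intro h
    refine conj_of hT fun N => ?_
    obtain ⟨i, hi, hX⟩ := h N
    exact ⟨i, hi, fun A _ _ _ => hX _ (ft_aff True)⟩

end Pool.Agent.Results.MP_e93a6a_ag.WeightMinusOne
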